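import Pool.Agent.Helper61.LF.GoalsN
import Pool.Agent.Helper66.LF.FGF

/-!
# PROJECT LF (MP_c65973_gt), part 2, packet MAX
-/

set_option autoImplicit false

namespace Pool.Agent.Helper80.LF.MAX

universe u

open Pool.Agent.Helper61.LF

/-- A module over a commutative ring with a noetherian ring modulo the annihilator, finitely
generated: noetherian. -/
theorem noeth (A : Type u) [CommRing A] (Q : Type u) [AddCommGroup Q] [Module A Q]
    [Module.Finite A Q] [IsNoetherianRing (A ⧸ Module.annihilator A Q)] : IsNoetherian A Q := by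
  let : Module (A ⧸ Module.annihilator A Q) Q := Module.quotientAnnihilator
  let e : Q →ₛₗ[Ideal.Quotient.mk (Module.annihilator A Q)] Q := ⟨.id _, fun _ _ => rfl⟩
  have hb : Function.Bijective e := Function.bijective_id
  rw [e.isNoetherian_iff_of_bijective hb]
  have hfin : Module.Finite (A ⧸ Module.annihilator A Q) Q := by
    obtain ⟨s, hs⟩ := (inferInstance : Module.Finite A Q).fg_top
    refine ⟨⟨s, ?_⟩⟩
    rw [eq_top_iff]
    rintro x -
    have hx : x ∈ Submodule.span A (s : Set Q) := by rw [hs]; trivial
    induction hx using Submodule.span_induction with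
    | mem x hx => exact Submodule.subset_span hx
    | zero => exact Submodule.zero_mem _
    | add x y _ _ hx hy => exact Submodule.add_mem _ hx hy
    | smul a x _ hx =>
      exact Submodule.smul_mem _ (Ideal.Quotient.mk (Module.annihilator A Q) a) hx
  infer_instance

theorem fin (A : Type u) [CommRing A] (Q : Type u) [AddCommGroup Q] [Module A Q]
    [Module.Finite A Q] (h : Finite (A ⧸ Module.annihilator A Q)) : Finite Q := by
  let : Module (A ⧸ Module.annihilator A Q) Q := Module.quotientAnnihilator
  have hfin : Module.Finite (A ⧸ Module.annihilator A Q) Q := by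
    obtain ⟨s, hs⟩ := (inferInstance : Module.Finite A Q).fg_top
    refine ⟨⟨s, ?_⟩⟩
    rw [eq_top_iff]
    rintro x -
    have hx : x ∈ Submodule.span A (s : Set Q) := by rw [hs]; trivial
    induction hx using Submodule.span_induction with
    | mem x hx => exact Submodule.subset_span hx
    | zero => exact Submodule.zero_mem _
    | add x y _ _ hx hy => exact Submodule.add_mem _ hx hy
    | smul a x _ hx =>
      exact Submodule.smul_mem _ (Ideal.Quotient.mk (Module.annihilator A Q) a) hx
  exact Module.finite_of_finite (A ⧸ Module.annihilator A Q)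

theorem t (h : S_FGF.{u}) : S_MAX.{u} := by
  intro A _ Q _ _ _ p hp0 hp hfg hinf
  by_contra hcon
  push Not at hcon
  have hNR : IsNoetherianRing (A ⧸ Module.annihilator A Q) :=
    Algebra.FiniteType.isNoetherianRing ℤ _
  have hNQ : IsNoetherian A Q := noeth A Q
  have hdim : Ring.KrullDimLE 0 (A ⧸ Module.annihilator A Q) := by
    refine Ring.KrullDimLE.mk₀ fun P' hP' => ?_
    obtain ⟨M', hM', hPM⟩ := Ideal.exists_le_maximal P' hP'.ne_top
    have hsurj : Function.Surjective (Ideal.Quotient.mk (Module.annihilator A Q)) :=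
      Ideal.Quotient.mk_surjective
    set M : Ideal A := M'.comap (Ideal.Quotient.mk (Module.annihilator A Q)) with hM
    set P : Ideal A := P'.comap (Ideal.Quotient.mk (Module.annihilator A Q)) with hP
    have hMmax : M.IsMaximal := Ideal.comap_isMaximal_of_surjective _ hsurj
    have hPprime : P.IsPrime := Ideal.comap_isPrime _ _
    have hIP : Module.annihilator A Q ≤ P := by
      intro x hx
      rw [hP, Ideal.mem_comap, Ideal.Quotient.eq_zero_iff_mem.2 hx]
      exact P'.zero_mem
    have hIM : Module.annihilator A Q ≤ M := by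
      intro x hx
      rw [hM, Ideal.mem_comap, Ideal.Quotient.eq_zero_iff_mem.2 hx]
      exact M'.zero_mem
    have hfinM : Finite (A ⧸ M) := by
      let : Field (A ⧸ M) := Ideal.Quotient.field M
      have h1 : Algebra.FiniteType ℤ (A ⧸ M) :=
        Algebra.FiniteType.of_surjective (Ideal.Quotient.factorₐ ℤ hIM)
          (Ideal.Quotient.factor_surjective hIM)
      obtain ⟨⟨s, hs⟩⟩ := h1
      exact h (A ⧸ M) s s.finite_toSet hs
    obtain ⟨m, hm⟩ := hcon M hfinM
    obtain ⟨a, ha1, ha2⟩ := Submodule.exists_sub_one_mem_and_smul_eq_zero_of_fg_of_le_smul M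
      (M ^ m • ⊤ : Submodule A Q) (IsNoetherian.noetherian _) (by
        have h3 : M • (M ^ m • ⊤ : Submodule A Q) = M ^ (m + 1) • ⊤ := by
          rw [← Submodule.mul_smul, ← pow_succ']
        rw [h3, hm])
    have haP : a ∉ P := by
      intro haP
      have haM : a ∈ M := Ideal.comap_mono hPM haP
      apply hMmax.ne_top
      rw [Ideal.eq_top_iff_one]
      have h2 := M.sub_mem haM ha1
      rwa [sub_sub_cancel] at h2
    have hpow : M ^ m ≤ P := by
      intro x hx
      have h2 : a * x ∈ Module.annihilator A Q := by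
        rw [Module.mem_annihilator]
        intro q
        rw [mul_smul]
        exact ha2 _ (Submodule.smul_mem_smul hx trivial)
      exact (hPprime.mem_or_mem (hIP h2)).resolve_left haP
    have hMP : M ≤ P := Ideal.IsPrime.le_of_pow_le hpow
    have hMP' : M' ≤ P' := by
      intro y hy
      obtain ⟨x, rfl⟩ := hsurj y
      exact hMP hy
    rw [le_antisymm hPM hMP']
    exact hM'
  have hart : IsArtinianRing (A ⧸ Module.annihilator A Q) :=
    IsNoetherianRing.isArtinianRing_of_krullDimLE_zero
  have hj : IsJacobsonRing ℤ := Pool.Agent.Helper66.LF.FGF.jac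
  have hfinA : Module.Finite ℤ (A ⧸ Module.annihilator A Q) := Module.finite_of_isArtinianRing ℤ _
  have hfin : Finite (A ⧸ Module.annihilator A Q) := by
    refine Module.finite_of_fg_torsion _ fun x => ?_
    refine ⟨⟨(p : ℤ), mem_nonZeroDivisors_of_ne_zero (by exact_mod_cast hp0.out.ne_zero)⟩, ?_⟩
    change (p : ℤ) • x = 0
    obtain ⟨a, rfl⟩ := Ideal.Quotient.mk_surjective x
    rw [zsmul_eq_mul, Int.cast_natCast, ← map_natCast (Ideal.Quotient.mk _), ← map_mul,
      Ideal.Quotient.eq_zero_iff_mem, Module.mem_annihilator]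
    intro q
    rw [mul_smul, Nat.cast_smul_eq_nsmul]
    exact hp _
  have hQ : Finite Q := fin A Q hfin
  exact not_finite_iff_infinite.2 hinf hQ

end Pool.Agent.Helper80.LF.MAX
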